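import Mathlib

/-!
# Vertex-transitive graphs without injective harmonic functions

On the lexicographic product `L[H]` of a locally finite graph `L` without isolated vertices with a
finite graph `H`, every harmonic function is constant on the fibres `{v} × H`.  Hence an infinite
connected locally finite vertex-transitive graph need not admit an injective harmonic function to
the integers, even if no two vertices have the same neighbourhood.
-/

namespace Pool.Agent.Results.MP_798444_co.LexicographicProducts

open Finset

/-- `f` is harmonic on the locally finite graph `G`: for every vertex `v`, `deg v * f v` is the sum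
of the values of `f` at the neighbours of `v`. -/
def IsHarmonic {V : Type*} {R : Type*} [Ring R] (G : SimpleGraph V) (f : V → R) : Prop :=
  ∀ v, ((G.neighborSet v).ncard : R) * f v = ∑ᶠ u ∈ G.neighborSet v, f u

/-- The automorphism group of `G` acts transitively on the vertices. -/
def VertexTransitive {V : Type*} (G : SimpleGraph V) : Prop :=
  ∀ u v : V, ∃ φ : G ≃g G, φ u = v

/-- Every vertex of `G` has finite degree. -/
def LocallyFinite {V : Type*} (G : SimpleGraph V) : Prop := ∀ v, (G.neighborSet v).Finite

/-- No two vertices have the same neighbourhood or the same closed neighbourhood. -/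
def TwinFree {V : Type*} (G : SimpleGraph V) : Prop :=
  ∀ u v : V, u ≠ v → G.neighborSet u ≠ G.neighborSet v ∧
    insert u (G.neighborSet u) ≠ insert v (G.neighborSet v)

/-- The lexicographic product `L[H]`: every vertex of `L` is replaced by a copy of `H`, and copies
over adjacent vertices are completely joined. -/
def lex {V W : Type*} (L : SimpleGraph V) (H : SimpleGraph W) : SimpleGraph (V × W) where
  Adj a b := L.Adj a.1 b.1 ∨ (a.1 = b.1 ∧ H.Adj a.2 b.2)
  symm := ⟨fun _ _ h => h.imp (fun h => h.symm) (fun h => ⟨h.1.symm, h.2.symm⟩)⟩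
  loopless := ⟨fun _ h => h.elim (fun h => L.irrefl h) (fun h => H.irrefl h.2)⟩

variable {V W : Type*}

theorem neighborSet_lex [Fintype W] (L : SimpleGraph V) (H : SimpleGraph W)
    (hL : LocallyFinite L) (v : V) (x : W) [DecidableRel H.Adj] [DecidableEq V] [DecidableEq W] :
    (lex L H).neighborSet (v, x) =
      (((hL v).toFinset ×ˢ (Finset.univ : Finset W)) ∪
        ({v} ×ˢ H.neighborFinset x) : Finset (V × W)) := by
  ext ⟨u, y⟩
  simp only [SimpleGraph.mem_neighborSet, lex, coe_union, coe_product, Set.Finite.coe_toFinset,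
    coe_univ, coe_singleton, SimpleGraph.coe_neighborFinset, Set.mem_union, Set.mem_prod,
    Set.mem_univ, and_true, Set.mem_singleton_iff]
  constructor
  · rintro (h | ⟨h1, h2⟩)
    · exact Or.inl h
    · exact Or.inr ⟨h1.symm, h2⟩
  · rintro (h | ⟨h1, h2⟩)
    · exact Or.inl h
    · exact Or.inr ⟨h1.symm, h2⟩

theorem disjoint_parts [Fintype W] (L : SimpleGraph V) (H : SimpleGraph W)
    (hL : LocallyFinite L) (v : V) (x : W) [DecidableRel H.Adj] [DecidableEq V] [DecidableEq W] :
    Disjoint ((hL v).toFinset ×ˢ (Finset.univ : Finset W)) ({v} ×ˢ H.neighborFinset x) := by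
  rw [Finset.disjoint_left]
  rintro ⟨u, y⟩ h1 h2
  simp only [mem_product, Set.Finite.mem_toFinset, SimpleGraph.mem_neighborSet, mem_univ,
    and_true, mem_singleton] at h1 h2
  rw [h2.1] at h1
  exact L.irrefl h1

/-- **Harmonic functions on `L[H]` are constant on fibres.** -/
theorem const_on_fibres {R : Type*} [Ring R] [LinearOrder R] [IsStrictOrderedRing R]
    [Finite W] (L : SimpleGraph V) (H : SimpleGraph W) (hL : LocallyFinite L)
    (hdeg : ∀ v, ∃ u, L.Adj v u) (f : V × W → R) (hf : IsHarmonic (lex L H) f) (v : V) (x y : W) :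
    f (v, x) = f (v, y) := by
  classical
  have := Fintype.ofFinite W
  have hne : (Finset.univ : Finset W).Nonempty := ⟨x, mem_univ x⟩
  obtain ⟨p, -, hp⟩ := Finset.exists_max_image Finset.univ (fun w => f (v, w)) hne
  obtain ⟨q, -, hq⟩ := Finset.exists_min_image Finset.univ (fun w => f (v, w)) hne
  set N : Finset V := (hL v).toFinset with hN
  set S : R := ∑ a ∈ N ×ˢ (Finset.univ : Finset W), f a with hS
  set c : ℕ := N.card * Fintype.card W with hc
  have hcpos : 0 < c := by
    obtain ⟨u, hu⟩ := hdeg v
    have h1 : 0 < N.card := Finset.card_pos.2 ⟨u, by simp [hN]; exact hu⟩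
    have h2 : 0 < Fintype.card W := Fintype.card_pos_iff.2 ⟨x⟩
    exact Nat.mul_pos h1 h2
  have key : ∀ w : W, ((c : R) + ((H.neighborFinset w).card : R)) * f (v, w) =
      S + ∑ z ∈ H.neighborFinset w, f (v, z) := by
    intro w
    have h := hf (v, w)
    rw [neighborSet_lex L H hL v w, Set.ncard_coe_finset, finsum_mem_coe_finset,
      Finset.card_union_of_disjoint (disjoint_parts L H hL v w),
      Finset.sum_union (disjoint_parts L H hL v w), Finset.card_product, Finset.card_product,
      Finset.sum_product {v} (H.neighborFinset w)] at h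
    simp only [card_univ, card_singleton, one_mul, sum_singleton] at h
    rw [hc, hS, ← h]
    push_cast
    rfl
  have hmax : (c : R) * f (v, p) ≤ S := by
    have h1 := key p
    have h2 : ∑ z ∈ H.neighborFinset p, f (v, z) ≤ ((H.neighborFinset p).card : R) * f (v, p) := by
      calc ∑ z ∈ H.neighborFinset p, f (v, z) ≤ ∑ _z ∈ H.neighborFinset p, f (v, p) :=
            Finset.sum_le_sum fun z _ => hp z (mem_univ z)
        _ = ((H.neighborFinset p).card : R) * f (v, p) := by rw [sum_const, nsmul_eq_mul]
    rw [add_mul] at h1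
    have h3 : (c : R) * f (v, p) = S + ∑ z ∈ H.neighborFinset p, f (v, z) -
        ((H.neighborFinset p).card : R) * f (v, p) := by rw [← h1]; abel
    rw [h3, sub_le_iff_le_add]
    exact add_le_add_right h2 S
  have hmin : S ≤ (c : R) * f (v, q) := by
    have h1 := key q
    have h2 : ((H.neighborFinset q).card : R) * f (v, q) ≤ ∑ z ∈ H.neighborFinset q, f (v, z) := by
      calc ((H.neighborFinset q).card : R) * f (v, q) = ∑ _z ∈ H.neighborFinset q, f (v, q) := by
            rw [sum_const, nsmul_eq_mul]
        _ ≤ ∑ z ∈ H.neighborFinset q, f (v, z) :=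
            Finset.sum_le_sum fun z _ => hq z (mem_univ z)
    rw [add_mul] at h1
    have h3 : (c : R) * f (v, q) = S + ∑ z ∈ H.neighborFinset q, f (v, z) -
        ((H.neighborFinset q).card : R) * f (v, q) := by rw [← h1]; abel
    rw [h3, le_sub_iff_add_le]
    exact add_le_add_right h2 S
  have hpq : f (v, p) ≤ f (v, q) := by
    have h1 := hmax.trans hmin
    exact le_of_mul_le_mul_left h1 (by exact_mod_cast hcpos)
  have hall : ∀ w, f (v, w) = f (v, q) := fun w =>
    le_antisymm ((hp w (mem_univ w)).trans hpq) (hq w (mem_univ w))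
  rw [hall x, hall y]

theorem locallyFinite_lex [Finite W] (L : SimpleGraph V) (H : SimpleGraph W)
    (hL : LocallyFinite L) : LocallyFinite (lex L H) := by
  classical
  have := Fintype.ofFinite W
  rintro ⟨v, x⟩
  rw [neighborSet_lex L H hL v x]
  exact Finset.finite_toSet _

theorem vertexTransitive_lex (L : SimpleGraph V) (H : SimpleGraph W)
    (hL : VertexTransitive L) (hH : VertexTransitive H) : VertexTransitive (lex L H) := by
  rintro ⟨u, x⟩ ⟨v, y⟩
  obtain ⟨φ, hφ⟩ := hL u v
  obtain ⟨ψ, hψ⟩ := hH x y
  refine ⟨⟨φ.toEquiv.prodCongr ψ.toEquiv, ?_⟩, ?_⟩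
  · rintro ⟨a, b⟩ ⟨c, d⟩
    show L.Adj (φ a) (φ c) ∨ (φ a = φ c ∧ H.Adj (ψ b) (ψ d)) ↔ L.Adj a c ∨ (a = c ∧ H.Adj b d)
    rw [φ.map_adj_iff, ψ.map_adj_iff, φ.injective.eq_iff]
  · exact Prod.ext hφ hψ

theorem connected_lex [Nonempty W] (L : SimpleGraph V) (H : SimpleGraph W)
    (hL : L.Connected) (hdeg : ∀ v, ∃ u, L.Adj v u) : (lex L H).Connected := by
  have hne : Nonempty V := hL.nonempty
  have hstep : ∀ (v u : V) (x y : W), L.Adj v u → (lex L H).Adj (v, x) (u, y) :=
    fun v u x y h => Or.inl h
  have hfib : ∀ (v : V) (x y : W), (lex L H).Reachable (v, x) (v, y) := by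
    intro v x y
    obtain ⟨u, hu⟩ := hdeg v
    exact (hstep v u x x hu).reachable.trans (hstep u v x y hu.symm).reachable
  have hreach : ∀ (u v : V) (p : L.Walk u v) (x : W), (lex L H).Reachable (u, x) (v, x) := by
    intro u v p x
    induction p with
    | nil => exact SimpleGraph.Reachable.refl _
    | cons h p ih => exact (hstep _ _ x x h).reachable.trans ih
  refine SimpleGraph.Connected.mk ?_
  rintro ⟨u, x⟩ ⟨v, y⟩
  obtain ⟨p⟩ := hL.preconnected u v
  exact (hreach u v p x).trans (hfib v x y)

/-! ### The concrete example `ℤ[C₅]` -/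

/-- The two-way infinite path. -/
def line : SimpleGraph ℤ where
  Adj a b := b = a + 1 ∨ a = b + 1
  symm := ⟨fun _ _ h => h.symm⟩
  loopless := ⟨fun a h => by omega⟩

/-- The pentagon. -/
def pentagon : SimpleGraph (ZMod 5) where
  Adj a b := b = a + 1 ∨ a = b + 1
  symm := ⟨fun _ _ h => h.symm⟩
  loopless := ⟨fun a h => by revert a; decide⟩

theorem line_locallyFinite : LocallyFinite line := by
  intro v
  refine (Set.toFinite ({v + 1, v - 1} : Set ℤ)).subset ?_
  intro u hu
  rcases hu with h | h
  · left; exact h
  · right; show u = v - 1; omega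

theorem line_transitive : VertexTransitive line := by
  intro u v
  refine ⟨⟨Equiv.addRight (v - u), ?_⟩, ?_⟩
  · intro a b
    show (b + (v - u) = a + (v - u) + 1 ∨ a + (v - u) = b + (v - u) + 1) ↔ (b = a + 1 ∨ a = b + 1)
    constructor <;> (intro h; omega)
  · show u + (v - u) = v
    ring

theorem line_connected : line.Connected := by
  have h0 : ∀ n : ℕ, line.Reachable (0 : ℤ) n := by
    intro n
    induction n with
    | zero => exact SimpleGraph.Reachable.refl _
    | succ n ih =>
      refine ih.trans (SimpleGraph.Adj.reachable ?_)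
      left; push_cast; ring
  have h1 : ∀ n : ℕ, line.Reachable (0 : ℤ) (-(n : ℤ)) := by
    intro n
    induction n with
    | zero => exact SimpleGraph.Reachable.refl _
    | succ n ih =>
      refine ih.trans (SimpleGraph.Adj.reachable ?_)
      right; push_cast; ring
  have h : ∀ z : ℤ, line.Reachable 0 z := by
    intro z
    rcases Int.eq_nat_or_neg z with ⟨n, rfl | rfl⟩
    · exact h0 n
    · exact h1 n
  exact SimpleGraph.Connected.mk fun u v => (h u).symm.trans (h v)

theorem pentagon_transitive : VertexTransitive pentagon := by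
  intro u v
  refine ⟨⟨Equiv.addRight (v - u), ?_⟩, ?_⟩
  · intro a b
    show (b + (v - u) = a + (v - u) + 1 ∨ a + (v - u) = b + (v - u) + 1) ↔ (b = a + 1 ∨ a = b + 1)
    constructor
    · rintro (h | h)
      · left; linear_combination h
      · right; linear_combination h
    · rintro (h | h)
      · left; linear_combination h
      · right; linear_combination h
  · show u + (v - u) = v
    ring

theorem example_twinFree : TwinFree (lex line pentagon) := by
  have key : ∀ (u v : ℤ) (x y : ZMod 5), (u, x) ≠ (v, y) →
      ∃ w : ℤ × ZMod 5, w ≠ (u, x) ∧ w ≠ (v, y) ∧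
        ¬ ((lex line pentagon).Adj (u, x) w ↔ (lex line pentagon).Adj (v, y) w) := by
    intro u v x y hne
    by_cases huv : u = v
    · subst huv
      have hxy : x ≠ y := fun h => hne (by rw [h])
      have hz : ∀ x y : ZMod 5, x ≠ y → ∃ z : ZMod 5, z ≠ x ∧ z ≠ y ∧
          ¬ ((z = x + 1 ∨ x = z + 1) ↔ (z = y + 1 ∨ y = z + 1)) := by decide
      obtain ⟨z, h1, h2, h3⟩ := hz x y hxy
      refine ⟨(u, z), fun h => h1 (congrArg Prod.snd h), fun h => h2 (congrArg Prod.snd h), ?_⟩
      intro h
      apply h3
      have e : ∀ t : ZMod 5, (lex line pentagon).Adj (u, t) (u, z) ↔ (z = t + 1 ∨ t = z + 1) := by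
        intro t
        simp [lex, line, pentagon]
      rw [e, e] at h
      exact h
    · rcases lt_or_gt_of_ne huv with hlt | hlt
      · refine ⟨((u - 1 : ℤ), (0 : ZMod 5)), ?_, ?_, ?_⟩
        · intro h; have := congrArg Prod.fst h; simp at this
        · intro h; have := congrArg Prod.fst h; simp at this; omega
        · intro h
          have h0 : (u - 1 = u + 1 ∨ u = u - 1 + 1) := Or.inr (by ring)
          rcases h.1 (Or.inl h0) with (h1 | h1) | ⟨h1, -⟩ <;> omega
      · refine ⟨((u + 1 : ℤ), (0 : ZMod 5)), ?_, ?_, ?_⟩
        · intro h; have := congrArg Prod.fst h; simp at this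
        · intro h; have := congrArg Prod.fst h; simp at this; omega
        · intro h
          have h0 : (u + 1 = u + 1 ∨ u = u + 1 + 1) := Or.inl rfl
          rcases h.1 (Or.inl h0) with (h1 | h1) | ⟨h1, -⟩ <;> omega
  rintro ⟨u, x⟩ ⟨v, y⟩ hne
  obtain ⟨w, hw1, hw2, hw3⟩ := key u v x y hne
  constructor
  · intro h
    apply hw3
    exact Set.ext_iff.1 h w
  · intro h
    apply hw3
    have := Set.ext_iff.1 h w
    simp only [Set.mem_insert_iff, hw1, hw2, false_or] at this
    exact this

/-- **Q1 has a negative answer.**

(1) For every infinite connected locally finite vertex-transitive graph `L` and every finite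
vertex-transitive graph `H` with at least two vertices, the lexicographic product `L[H]` is an
infinite connected locally finite vertex-transitive graph on which every harmonic function, with
integer or with real values, takes the same value at all vertices of each fibre `{v} × H`; in
particular it is not injective.

(2) There is an infinite connected locally finite vertex-transitive graph, without any two vertices
having the same (open or closed) neighbourhood, that has no injective harmonic function to `ℤ`. -/
theorem result :
    (∀ (V W : Type) (L : SimpleGraph V) (H : SimpleGraph W), Infinite V → Finite W →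
      Nontrivial W → L.Connected → LocallyFinite L → VertexTransitive L → VertexTransitive H →
        Infinite (V × W) ∧ (lex L H).Connected ∧ LocallyFinite (lex L H) ∧
        VertexTransitive (lex L H) ∧
        (∀ f : V × W → ℤ, IsHarmonic (lex L H) f → ∀ v x y, f (v, x) = f (v, y)) ∧
        (∀ f : V × W → ℝ, IsHarmonic (lex L H) f → ∀ v x y, f (v, x) = f (v, y)) ∧
        (∀ f : V × W → ℤ, IsHarmonic (lex L H) f → ¬ Function.Injective f)) ∧
    (∃ (V : Type) (G : SimpleGraph V), Infinite V ∧ G.Connected ∧ LocallyFinite G ∧
      VertexTransitive G ∧ TwinFree G ∧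
        ∀ f : V → ℤ, IsHarmonic G f → ¬ Function.Injective f) := by
  have main : ∀ (V W : Type) (L : SimpleGraph V) (H : SimpleGraph W), Infinite V → Finite W →
      Nontrivial W → L.Connected → LocallyFinite L → VertexTransitive L → VertexTransitive H →
        Infinite (V × W) ∧ (lex L H).Connected ∧ LocallyFinite (lex L H) ∧
        VertexTransitive (lex L H) ∧
        (∀ f : V × W → ℤ, IsHarmonic (lex L H) f → ∀ v x y, f (v, x) = f (v, y)) ∧
        (∀ f : V × W → ℝ, IsHarmonic (lex L H) f → ∀ v x y, f (v, x) = f (v, y)) ∧
        (∀ f : V × W → ℤ, IsHarmonic (lex L H) f → ¬ Function.Injective f) := by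
    intro V W L H hV hW hnt hconn hlf htL htH
    have hdeg : ∀ v, ∃ u, L.Adj v u := by
      intro v
      exact hconn.preconnected.exists_adj_of_nontrivial v
    have hne : Nonempty W := inferInstance
    refine ⟨inferInstance, connected_lex L H hconn hdeg, locallyFinite_lex L H hlf,
      vertexTransitive_lex L H htL htH, ?_, ?_, ?_⟩
    · intro f hf v x y
      exact const_on_fibres L H hlf hdeg f hf v x y
    · intro f hf v x y
      exact const_on_fibres L H hlf hdeg f hf v x y
    · intro f hf hinj
      obtain ⟨x, y, hxy⟩ := exists_pair_ne W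
      obtain ⟨v⟩ : Nonempty V := inferInstance
      have h := hinj (const_on_fibres L H hlf hdeg f hf v x y)
      exact hxy (congrArg Prod.snd h)
  refine ⟨main, ?_⟩
  have hnt : Nontrivial (ZMod 5) := ⟨⟨0, 1, by decide⟩⟩
  obtain ⟨h1, h2, h3, h4, -, -, h7⟩ := main ℤ (ZMod 5) line pentagon inferInstance
    inferInstance hnt line_connected line_locallyFinite line_transitive
    pentagon_transitive
  exact ⟨ℤ × ZMod 5, lex line pentagon, h1, h2, h3, h4, example_twinFree, h7⟩

end Pool.Agent.Results.MP_798444_co.LexicographicProducts
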